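import Pool.Agent.Helper17.OD.GoalsCV

/-! Packet OD CL3: the graph of the collapsing of mice is constructible. -/

set_option autoImplicit false

namespace Pool.Agent.Helper17.OD.PkCL3

open Set Pool.Agent.Helper17.OD

/-- the closure of the mouse `M` -/
def Cl (k : O) (M t : T) : Prop := ∃ d ∈ D (Iio k), InD M.snd.snd.fst d ∧ HC M d t

/-- the domain -/
def C1 (k : O) (n M : T) : Prop :=
  ∀ t ∈ D (Iio k), (InD n.fst t ↔ ∃ t' ∈ D (Iio k), PJ n M t t')

/-- the range -/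
def C2 (k : O) (n M : T) : Prop :=
  ∀ t' ∈ D (Iio k), (Cl k M t' ↔ ∃ t ∈ D (Iio k), PJ n M t t')

/-- pairs -/
def Pa (t t' s s' : T) : Prop := (t = s → t' = s') ∧ (t.llt s → t'.llt s')

/-- a monotone function compatible with the cuts -/
def C3 (k : O) (n M : T) : Prop := ∀ t ∈ D (Iio k), ∀ t' ∈ D (Iio k), PJ n M t t' →
  ((t.IsOrd → t'.IsOrd) ∧ (t.lt n.snd.fst.snd ↔ t'.lt M.snd.fst.snd)) ∧
  ∀ s ∈ D (Iio k), ∀ s' ∈ D (Iio k), PJ n M s s' →
    (t = s → t' = s') ∧ (t.llt s → t'.llt s')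

/-- The characterisation of the collapsed mouse `n` of `M`. -/
structure Ch (k : O) (n M : T) : Prop where
  shp : n = .pr n.fst (.pr (.pr M.snd.fst.fst n.snd.fst.snd) (.pr M.snd.snd.fst n.snd.snd.snd))
  ord : n.fst.IsOrd
  cut : InD n.fst n.snd.fst.snd
  c1 : C1 k n M
  c2 : C2 k n M
  c3 : C3 k n M

theorem enum_aux {a a' : O} {f g : O → O} (hf : StrictMonoOn f (Iio a))
    (hg : StrictMonoOn g (Iio a')) (h : f '' Iio a = g '' Iio a') :
    ∀ x < a, x < a' ∧ f x = g x := by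
  intro x
  induction x using WellFoundedLT.induction with
  | ind x ih =>
    intro hx
    obtain ⟨z, hz, hfz⟩ : f x ∈ g '' Iio a' := h ▸ ⟨x, hx, rfl⟩
    have hxz : x ≤ z := by
      by_contra hlt
      rw [not_le] at hlt
      obtain ⟨h1, h2⟩ := ih z hlt (hlt.trans hx)
      have h3 := hf (show z ∈ Iio a from hlt.trans hx) hx hlt
      rw [h2, hfz] at h3
      exact lt_irrefl _ h3
    have hx' : x < a' := lt_of_le_of_lt hxz hz
    obtain ⟨w, hw, hgw⟩ : g x ∈ f '' Iio a := h ▸ ⟨x, hx', rfl⟩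
    have hxw : x ≤ w := by
      by_contra hlt
      rw [not_le] at hlt
      obtain ⟨h1, h2⟩ := ih w hlt (hlt.trans hx)
      have h3 := hg (show w ∈ Iio a' from hlt.trans hx') hx' hlt
      rw [← h2, hgw] at h3
      exact lt_irrefl _ h3
    refine ⟨hx', le_antisymm ?_ ?_⟩
    · rw [← hgw]
      exact hf.monotoneOn hx hw hxw
    · rw [← hfz]
      exact hg.monotoneOn hx' hz hxz

theorem enum_eq {a a' : O} {f g : O → O} (hf : StrictMonoOn f (Iio a))
    (hg : StrictMonoOn g (Iio a')) (h : f '' Iio a = g '' Iio a') :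
    a = a' ∧ ∀ x < a, f x = g x := by
  have h1 := enum_aux hf hg h
  have h2 := enum_aux hg hf h.symm
  refine ⟨le_antisymm ?_ ?_, fun x hx => (h1 x hx).2⟩
  · exact le_of_forall_lt fun x hx => (h1 x hx).1
  · exact le_of_forall_lt fun x hx => (h2 x hx).1

theorem map_congr {a : O} {f g : O → O} (h : ∀ x < a, f x = g x) :
    ∀ t : T, t ∈ D (Iio a) → t.map f = t.map g := by
  intro t
  induction t with
  | nat n => intro _; rfl
  | ord x =>
    intro hx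
    simp only [Tr.map]
    rw [h x (ord_mem.1 hx)]
  | pr s t hs ht =>
    intro hx
    simp only [Tr.map]
    rw [hs (pr_mem.1 hx).1, ht (pr_mem.1 hx).2]

theorem map_mem {a b : O} {f : O → O} (h : ∀ x < a, f x < b) :
    ∀ t : T, t ∈ D (Iio a) → t.map f ∈ D (Iio b) := by
  intro t
  induction t with
  | nat n => intro _; exact nat_mem _ _
  | ord x => intro hx; exact ord_mem.2 (h x (ord_mem.1 hx))
  | pr s t hs ht => intro hx; exact pr_mem.2 ⟨hs (pr_mem.1 hx).1, ht (pr_mem.1 hx).2⟩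

theorem inD_iff {a : O} {t : T} : InD (.ord a) t ↔ t ∈ D (Iio a) := by
  constructor
  · rintro ⟨b, hb, h⟩
    injection hb with hb
    rw [hb]
    exact h
  · intro h
    exact ⟨a, rfl, h⟩

theorem tcl_mem {a : O} {Q : Code → T → Prop} {A : Set O} {t : T} (h : TCl a Q A t) :
    t ∈ D (Iio a) := by
  induction h with
  | nat n => exact nat_mem _ _
  | base _ hx => exact ord_mem.2 hx
  | pr _ _ h1 h2 => exact pr_mem.2 ⟨h1, h2⟩
  | fst _ h => exact fst_mem h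
  | snd _ h => exact snd_mem h
  | inner _ hb _ _ hw _ _ => exact D_mono (Iio_subset_Iio hb.le) hw.1
  | top _ _ hw _ => exact hw.1

theorem tcl_hull {a : O} {Q : Code → T → Prop} {A : Set O} : ∀ t : T,
    TCl a Q A t ↔ t ∈ D (Hull a Q A) := by
  intro t
  induction t with
  | nat n => exact ⟨fun _ => nat_mem _ _, fun _ => .nat n⟩
  | ord x =>
    rw [ord_mem]
    exact Iff.rfl
  | pr s t hs ht =>
    rw [pr_mem, ← hs, ← ht]
    exact ⟨fun h => ⟨h.fst, h.snd⟩, fun h => h.1.pr h.2⟩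

theorem tcl_mono {a : O} {Q : Code → T → Prop} {A B : Set O} (hAB : A ⊆ B) {t : T}
    (h : TCl a Q A t) : TCl a Q B t := by
  induction h with
  | nat n => exact .nat n
  | base h1 h2 => exact .base (hAB h1) h2
  | pr _ _ h1 h2 => exact h1.pr h2
  | fst _ h => exact h.fst
  | snd _ h => exact h.snd
  | inner _ hb _ he hw h1 h2 => exact .inner h1 hb h2 he hw
  | top _ hq hw h => exact .top h hq hw

section sd

variable {k : O} {S S' : Set (Set T)} (h : SOM k S S')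

include h

theorem sdPJ (hTRD : G_TRD) (hPJT : G_PJT) :
    SD k S S' (fun e _ => PJ e.fst e.snd.fst e.snd.snd.fst e.snd.snd.snd) := by
  refine (hTRD k S S' h).2.2 _ (hPJT (fun e => e.fst) (fun e => e.snd.fst)
    (fun e => e.snd.snd.fst) (fun e => e.snd.snd.snd) ?_ ?_ ?_ ?_)
  · exact ⟨.pr (.nat 0) (.nat 0), fun _ => rfl⟩
  · exact ⟨.pr (.nat 0) (.pr (.nat 1) (.nat 0)), fun _ => rfl⟩
  · exact ⟨.pr (.nat 0) (.pr (.nat 1) (.pr (.nat 1) (.nat 0))), fun _ => rfl⟩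
  · exact ⟨.pr (.nat 1) (.pr (.nat 1) (.pr (.nat 1) (.nat 0))), fun _ => rfl⟩

theorem sdHC (hTRD : G_TRD) (hHCT : G_HCT) :
    SD k S S' (fun e _ => HC e.fst e.snd.fst e.snd.snd) := by
  refine (hTRD k S S' h).2.2 _ (hHCT (fun e => e.fst) (fun e => e.snd.fst)
    (fun e => e.snd.snd) ?_ ?_ ?_)
  · exact ⟨.pr (.nat 0) (.nat 0), fun _ => rfl⟩
  · exact ⟨.pr (.nat 0) (.pr (.nat 1) (.nat 0)), fun _ => rfl⟩
  · exact ⟨.pr (.nat 1) (.pr (.nat 1) (.nat 0)), fun _ => rfl⟩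

theorem sdInD (hTRE : G_TRE) : SD k S S' (fun e _ => InD e.fst e.snd) :=
  (hTRE k S S' h).2.2.2.2.2.1

theorem sdlt (hTRE : G_TRE) : SD k S S' (fun e _ => e.fst.lt e.snd) :=
  (hTRE k S S' h).2.1

theorem sdCl (hTRD : G_TRD) (hHCT : G_HCT) (hTRE : G_TRE) :
    SD k S S' (fun e _ => Cl k e.fst e.snd) := by
  have := h
  refine SD.exT (P := fun e d _ => InD e.fst.snd.snd.fst d ∧ HC e.fst d e.snd) ?_
  refine SD.and ?_ ?_
  · exact SD.app2 (R := InD) (sdInD h hTRE) (ST.fst (ST.snd (ST.snd (ST.fst (ST.snd ST.id)))))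
      (ST.fst ST.id)
  · exact SD.app3 (R := HC) (sdHC h hTRD hHCT) (ST.fst (ST.snd ST.id)) (ST.fst ST.id)
      (ST.snd (ST.snd ST.id))

theorem sdC1 (hTRD : G_TRD) (hPJT : G_PJT) (hTRE : G_TRE) :
    SD k S S' (fun e _ => C1 k e.fst e.snd) := by
  have := h
  refine SD.allT (P := fun e t _ =>
    (InD e.fst.fst t ↔ ∃ t' ∈ D (Iio k), PJ e.fst e.snd t t')) ?_
  refine SD.iff ?_ ?_
  · exact SD.app2 (R := InD) (sdInD h hTRE) (ST.fst (ST.fst (ST.snd ST.id))) (ST.fst ST.id)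
  · refine SD.exT (P := fun p t' _ => PJ p.snd.fst p.snd.snd p.fst t') ?_
    exact SD.app4 (R := PJ) (sdPJ h hTRD hPJT) (ST.fst (ST.snd (ST.snd ST.id)))
      (ST.snd (ST.snd (ST.snd ST.id))) (ST.fst (ST.snd ST.id)) (ST.fst ST.id)

theorem sdC2 (hTRD : G_TRD) (hPJT : G_PJT) (hHCT : G_HCT) (hTRE : G_TRE) :
    SD k S S' (fun e _ => C2 k e.fst e.snd) := by
  have := h
  refine SD.allT (P := fun e t' _ =>
    (Cl k e.snd t' ↔ ∃ t ∈ D (Iio k), PJ e.fst e.snd t t')) ?_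
  refine SD.iff ?_ ?_
  · exact SD.app2 (R := Cl k) (sdCl h hTRD hHCT hTRE) (ST.snd (ST.snd ST.id)) (ST.fst ST.id)
  · refine SD.exT (P := fun p t _ => PJ p.snd.fst p.snd.snd t p.fst) ?_
    exact SD.app4 (R := PJ) (sdPJ h hTRD hPJT) (ST.fst (ST.snd (ST.snd ST.id)))
      (ST.snd (ST.snd (ST.snd ST.id))) (ST.fst ST.id) (ST.fst (ST.snd ST.id))

theorem sdC3 (hTRD : G_TRD) (hPJT : G_PJT) (hTRE : G_TRE) :
    SD k S S' (fun e _ => C3 k e.fst e.snd) := by
  have := h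
  refine SD.allT (P := fun e t _ => ∀ t' ∈ D (Iio k), PJ e.fst e.snd t t' →
    ((t.IsOrd → t'.IsOrd) ∧ (t.lt e.fst.snd.fst.snd ↔ t'.lt e.snd.snd.fst.snd)) ∧
    ∀ s ∈ D (Iio k), ∀ s' ∈ D (Iio k), PJ e.fst e.snd s s' →
      (t = s → t' = s') ∧ (t.llt s → t'.llt s')) ?_
  refine SD.allT (P := fun p t' _ => PJ p.snd.fst p.snd.snd p.fst t' →
    ((p.fst.IsOrd → t'.IsOrd) ∧ (p.fst.lt p.snd.fst.snd.fst.snd ↔ t'.lt p.snd.snd.snd.fst.snd)) ∧
    ∀ s ∈ D (Iio k), ∀ s' ∈ D (Iio k), PJ p.snd.fst p.snd.snd s s' →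
      (p.fst = s → t' = s') ∧ (p.fst.llt s → t'.llt s')) ?_
  refine SD.imp ?_ (SD.and (SD.and ?_ ?_) ?_)
  · exact SD.app4 (R := PJ) (sdPJ h hTRD hPJT) (ST.fst (ST.snd (ST.snd ST.id)))
      (ST.snd (ST.snd (ST.snd ST.id))) (ST.fst (ST.snd ST.id)) (ST.fst ST.id)
  · exact SD.imp (SD.isOrd (ST.fst (ST.snd ST.id))) (SD.isOrd (ST.fst ST.id))
  · refine SD.iff ?_ ?_
    · exact SD.app2 (R := fun s t => s.lt t) (sdlt h hTRE) (ST.fst (ST.snd ST.id))
        (ST.snd (ST.fst (ST.snd (ST.fst (ST.snd (ST.snd ST.id))))))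
    · exact SD.app2 (R := fun s t => s.lt t) (sdlt h hTRE) (ST.fst ST.id)
        (ST.snd (ST.fst (ST.snd (ST.snd (ST.snd (ST.snd ST.id))))))
  · refine SD.allT (P := fun q s _ => ∀ s' ∈ D (Iio k), PJ q.snd.snd.fst q.snd.snd.snd s s' →
      (q.snd.fst = s → q.fst = s') ∧ (q.snd.fst.llt s → q.fst.llt s')) ?_
    refine SD.allT (P := fun r s' _ => PJ r.snd.snd.snd.fst r.snd.snd.snd.snd r.fst s' →
      (r.snd.snd.fst = r.fst → r.snd.fst = s') ∧ (r.snd.snd.fst.llt r.fst → r.snd.fst.llt s')) ?_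
    refine SD.imp ?_ (SD.and (SD.imp ?_ ?_) (SD.imp ?_ ?_))
    · exact SD.app4 (R := PJ) (sdPJ h hTRD hPJT)
        (ST.fst (ST.snd (ST.snd (ST.snd (ST.snd ST.id)))))
        (ST.snd (ST.snd (ST.snd (ST.snd (ST.snd ST.id))))) (ST.fst (ST.snd ST.id)) (ST.fst ST.id)
    · exact SD.eq (ST.fst (ST.snd (ST.snd (ST.snd ST.id)))) (ST.fst (ST.snd ST.id))
    · exact SD.eq (ST.fst (ST.snd (ST.snd ST.id))) (ST.fst ST.id)
    · exact SD.llt (ST.fst (ST.snd (ST.snd (ST.snd ST.id)))) (ST.fst (ST.snd ST.id))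
    · exact SD.llt (ST.fst (ST.snd (ST.snd ST.id))) (ST.fst ST.id)

theorem sdCh (hTRD : G_TRD) (hPJT : G_PJT) (hHCT : G_HCT) (hTRE : G_TRE) :
    SD k S S' (fun e _ => Ch k e.fst e.snd) := by
  have := h
  refine SD.congr (SD.and (SD.eq (ST.fst ST.id) (ST.pr (ST.fst (ST.fst ST.id))
    (ST.pr (ST.pr (ST.fst (ST.fst (ST.snd (ST.snd ST.id))))
      (ST.snd (ST.fst (ST.snd (ST.fst ST.id)))))
      (ST.pr (ST.fst (ST.snd (ST.snd (ST.snd ST.id))))
        (ST.snd (ST.snd (ST.snd (ST.fst ST.id)))))))) (SD.and (SD.isOrd (ST.fst (ST.fst ST.id)))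
    (SD.and (SD.app2 (R := InD) (sdInD h hTRE) (ST.fst (ST.fst ST.id))
      (ST.snd (ST.fst (ST.snd (ST.fst ST.id)))))
    (SD.and (sdC1 h hTRD hPJT hTRE) (SD.and (sdC2 h hTRD hPJT hHCT hTRE)
      (sdC3 h hTRD hPJT hTRE)))))) ?_
  intro e _ σ _
  constructor
  · rintro ⟨h1, h2, h3, h4, h5, h6⟩
    exact ⟨h1, h2, h3, h4, h5, h6⟩
  · rintro ⟨h1, h2, h3, h4, h5, h6⟩
    exact ⟨h1, h2, h3, h4, h5, h6⟩

end sd

theorem cl_iff (hCLF : G_CLF) {k a d : O} {φ u p M t : T} (hM : M = mouse a φ u d p)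
    (hp : p ∈ D (Iio a)) (hda : d ≤ a) (hak : a < k) :
    Cl k M t ↔ TCl (mA M) (av (mQ M)) (Iio (mD M) ∪ (mP M).leaves) t := by
  subst hM
  constructor
  · rintro ⟨x, hx, hx1, hx2⟩
    have hx3 : x ∈ D (Iio d) := inD_iff.1 hx1
    exact tcl_mono (union_subset_union_left _ hx3) hx2.2.2.2
  · intro h
    obtain ⟨x, hx, hx'⟩ := hCLF _ _ _ _ _ h
    have hx1 : x ∈ D (Iio d) := hx
    exact ⟨x, D_mono (Iio_subset_Iio (hda.trans hak.le)) hx1, inD_iff.2 hx1,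
      trivial, hp, D_mono (Iio_subset_Iio hda) hx1, hx'⟩

theorem llt_ord {x y : O} : (Tr.ord x : T).llt (.ord y) ↔ x < y := Iff.rfl

theorem exists_ord {t : T} (h : t.IsOrd) : ∃ x : O, t = .ord x := by
  cases t with
  | nat n => exact h.elim
  | ord x => exact ⟨x, rfl⟩
  | pr s t => exact h.elim

theorem ch_exists (hCLF : G_CLF) (hMAPT : G_MAPT.{2, 2}) (hLTO : G_LTO.{2}) {k β : O} {I : Set T}
    {p₀ : T} {d₀ : O} (hS : Sys k β I p₀ d₀) {f : T → O → O} {m : T → T} (hC : Clp β I f m)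
    {M : T} (hM : M ∈ I) (hMk : M ∈ D (Iio k)) : Ch k (m M) M := by
  obtain ⟨b, φ', v, d', hMm, hp₀, hv, hd₀, hdβ, hdb⟩ := hS.mice M hM
  obtain ⟨a, φ, u, d, p, hm, hφ, hd, hda, hu, hp, haβ, hpm⟩ := hC.ms M hM
  have hmono := hC.mono M hM
  have hrng := hC.rng M hM
  have hcut := hC.cut M hM
  have hpj := hC.pj M hM
  have hbk : b < k := by
    rw [hMm] at hMk
    exact ord_mem.1 (pr_mem.1 hMk).1
  have hcl : ∀ t, Cl k M t ↔ TCl (mA M) (av (mQ M)) (Iio (mD M) ∪ (mP M).leaves) t :=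
    fun t => cl_iff hCLF hMm hp₀ hdb hbk
  have hma : mA (m M) = a := by rw [hm]; rfl
  have hmb : mA M = b := by rw [hMm]; rfl
  rw [hma] at hmono hrng hcut
  have hpj' : ∀ t t' : T, PJ (m M) M t t' ↔ t ∈ D (Iio a) ∧ t' = t.map (f M) := by
    intro t t'
    rw [hpj, hma]
  have hfb : ∀ x < a, f M x < b := by
    intro x hx
    have h1 : f M x ∈ HullM M := hrng ▸ ⟨x, hx, rfl⟩
    have h2 := ord_mem.1 (tcl_mem (show TCl _ _ _ (.ord (f M x)) from h1))
    rwa [hmb] at h2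
  have hfk : ∀ t ∈ D (Iio a), t.map (f M) ∈ D (Iio k) := fun t ht =>
    map_mem (fun x hx => (hfb x hx).trans hbk) t ht
  have hak : a ≤ b := by
    by_contra hlt
    rw [not_le] at hlt
    have h1 : ∀ x < a, x ≤ f M x := by
      intro x
      induction x using WellFoundedLT.induction with
      | ind x ih =>
        intro hx
        by_contra h2
        rw [not_le] at h2
        have h3 := ih (f M x) h2 (h2.trans hx)
        exact absurd (hmono (show f M x ∈ Iio a from h2.trans hx) hx h2) (not_lt.2 h3)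
    exact absurd (h1 b hlt) (not_le.2 (hfb b hlt))
  have hak' : D (Iio a) ⊆ D (Iio k) := D_mono (Iio_subset_Iio (hak.trans hbk.le))
  obtain ⟨-, -, hinj, hlt, hord, -, -, -, hran, -⟩ := hMAPT O O (f M) (Iio a) hmono
  refine ⟨?_, ?_, ?_, ?_, ?_, ?_⟩
  · have h1 : M.snd.fst.fst = Tr.ofCode φ := hφ
    have h2 : M.snd.snd.fst = .ord d := by
      rw [hd, hMm]
      rfl
    rw [h1, h2, hm]
    rfl
  · rw [hm]
    trivial
  · rw [hm]
    exact inD_iff.2 hu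
  · intro t ht
    have h1 : (m M).fst = .ord a := by rw [hm]; rfl
    rw [h1, inD_iff]
    constructor
    · intro h2
      exact ⟨t.map (f M), hfk t h2, (hpj' _ _).2 ⟨h2, rfl⟩⟩
    · rintro ⟨t', -, h2⟩
      exact ((hpj' _ _).1 h2).1
  · intro t' ht'
    rw [hcl, tcl_hull]
    change t' ∈ D (HullM M) ↔ _
    rw [← hrng, hran]
    constructor
    · rintro ⟨t, h1, h2⟩
      exact ⟨t, hak' h1, (hpj' _ _).2 ⟨h1, h2.symm⟩⟩
    · rintro ⟨t, -, h1⟩
      obtain ⟨h2, h3⟩ := (hpj' _ _).1 h1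
      exact ⟨t, h2, h3.symm⟩
  · intro t ht t' ht' h1
    obtain ⟨h2, rfl⟩ := (hpj' _ _).1 h1
    refine ⟨⟨(hord t).2, ?_⟩, ?_⟩
    · have h3 := hcut φ t h2
      have hφ' : (Tr.ofCode φ' : T) = Tr.ofCode φ := by
        rw [← hφ, hMm]
        rfl
      have h4 : mQ M = .pr (Tr.ofCode φ) v := by
        rw [hMm, ← hφ']
        rfl
      have h5 : mQ (m M) = .pr (Tr.ofCode φ) u := by
        rw [hm]
        rfl
      have h6 : M.snd.fst.snd = v := by
        rw [hMm]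
        rfl
      have h7 : (m M).snd.fst.snd = u := by
        rw [hm]
        rfl
      rw [h4, h5] at h3
      rw [h6, h7]
      have hirr : ¬ (Tr.ofCode φ : T).lt (Tr.ofCode φ) := (hLTO O).1 _
      have h8 : ∀ (w : T) (e : T), av (.pr (Tr.ofCode φ) w) φ e ↔ e.lt w := by
        intro w e
        simp only [av, hirr, false_or, true_and]
      rw [h8, h8] at h3
      exact h3.symm
    · intro s hs s' hs' h3
      obtain ⟨h4, rfl⟩ := (hpj' _ _).1 h3
      refine ⟨fun h5 => by rw [h5], ?_⟩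
      intro h5
      cases t with
      | nat n =>
        cases s with
        | nat n' => exact h5
        | ord y => exact h5
        | pr _ _ => exact h5
      | ord x =>
        cases s with
        | nat n' => exact h5
        | ord y => exact hmono (ord_mem.1 h2) (ord_mem.1 h4) h5
        | pr _ _ => exact h5
      | pr _ _ => exact h5.elim

theorem ch_unique (hCLF : G_CLF) (hMAPT : G_MAPT.{2, 2}) (hLTO : G_LTO.{2}) {k β : O} {I : Set T}
    {p₀ : T} {d₀ : O} (hS : Sys k β I p₀ d₀) {f : T → O → O} {m : T → T} (hC : Clp β I f m)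
    {M : T} (hM : M ∈ I) (hMk : M ∈ D (Iio k)) {n : T} (hnk : n ∈ D (Iio k)) (hn : Ch k n M) :
    n = m M := by
  obtain ⟨b, φ', v, d', hMm, hp₀, hv, hd₀, hdβ, hdb⟩ := hS.mice M hM
  obtain ⟨a, φ, u, d, p, hm, hφ, hd, hda, hu, hp, haβ, hpm⟩ := hC.ms M hM
  have hmono := hC.mono M hM
  have hrng := hC.rng M hM
  have hcut := hC.cut M hM
  have hbk : b < k := by
    rw [hMm] at hMk
    exact ord_mem.1 (pr_mem.1 hMk).1
  have hcl : ∀ t, Cl k M t ↔ TCl (mA M) (av (mQ M)) (Iio (mD M) ∪ (mP M).leaves) t :=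
    fun t => cl_iff hCLF hMm hp₀ hdb hbk
  have hma : mA (m M) = a := by rw [hm]; rfl
  have hmb : mA M = b := by rw [hMm]; rfl
  rw [hma] at hmono hrng hcut
  have hφ' : (Tr.ofCode φ' : T) = Tr.ofCode φ := by
    rw [← hφ, hMm]
    rfl
  have hdd : d' = d := by
    rw [hd, hMm]
    rfl
  obtain ⟨c, w, q, hnn⟩ : ∃ (c : O) (w q : T), n = mouse c (Tr.ofCode φ) w d q := by
    obtain ⟨c, hc⟩ := exists_ord hn.ord
    refine ⟨c, n.snd.fst.snd, n.snd.snd.snd, ?_⟩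
    have h1 := hn.shp
    have h2 : M.snd.fst.fst = Tr.ofCode φ := hφ
    have h3 : M.snd.snd.fst = .ord d := by
      rw [hd, hMm]
      rfl
    rw [h2, h3, hc] at h1
    exact h1
  have hnf : n.fst = .ord c := by rw [hnn]; rfl
  have hck : c < k := by
    rw [hnn] at hnk
    exact ord_mem.1 (pr_mem.1 hnk).1
  have hDk : D (Iio c) ⊆ D (Iio k) := D_mono (Iio_subset_Iio hck.le)
  have hg : ∀ x : O, ∃ y : O, x < c → y < k ∧ PJ n M (.ord x) (.ord y) := by
    intro x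
    by_cases hx : x < c
    · have h1 : (Tr.ord x : T) ∈ D (Iio c) := ord_mem.2 hx
      obtain ⟨t', ht', h2⟩ := (hn.c1 (.ord x) (hDk h1)).1 (by rw [hnf]; exact inD_iff.2 h1)
      obtain ⟨y, rfl⟩ := exists_ord ((hn.c3 _ (hDk h1) _ ht' h2).1.1 trivial)
      exact ⟨y, fun _ => ⟨ord_mem.1 ht', h2⟩⟩
    · exact ⟨0, fun h => absurd h hx⟩
  choose g hg using hg
  have hgm : ∀ t : T, t ∈ D (Iio c) → PJ n M t (t.map g) := by
    intro t
    induction t with
    | nat n => intro _; exact .nat n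
    | ord x => intro hx; exact (hg x (ord_mem.1 hx)).2
    | pr s t hs ht => intro hx; exact .pr (hs (pr_mem.1 hx).1) (ht (pr_mem.1 hx).2)
  have hgk : ∀ t : T, t ∈ D (Iio c) → t.map g ∈ D (Iio k) :=
    map_mem fun x hx => (hg x hx).1
  have huni : ∀ t ∈ D (Iio k), ∀ t' ∈ D (Iio k), PJ n M t t' → t ∈ D (Iio c) ∧ t' = t.map g := by
    intro t ht t' ht' h1
    have h2 : t ∈ D (Iio c) := by
      have := (hn.c1 t ht).2 ⟨t', ht', h1⟩
      rwa [hnf, inD_iff] at this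
    exact ⟨h2, ((hn.c3 t ht t' ht' h1).2 t ht _ (hgk t h2) (hgm t h2)).1 rfl⟩
  have hgmono : StrictMonoOn g (Iio c) := by
    intro x hx y hy hxy
    have h1 := hgm (.ord x) (ord_mem.2 hx)
    have h2 := hgm (.ord y) (ord_mem.2 hy)
    exact ((hn.c3 _ (hDk (ord_mem.2 hx)) _ (hgk _ (ord_mem.2 hx)) h1).2 _ (hDk (ord_mem.2 hy)) _
      (hgk _ (ord_mem.2 hy)) h2).2 hxy
  have himg : g '' Iio c = HullM M := by
    ext y
    constructor
    · rintro ⟨x, hx, rfl⟩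
      have h1 : (Tr.ord x : T) ∈ D (Iio c) := ord_mem.2 hx
      exact (hcl _).1 ((hn.c2 (.ord (g x)) (hgk _ h1)).2 ⟨.ord x, hDk h1, hgm _ h1⟩)
    · intro hy
      have hy1 : TCl (mA M) (av (mQ M)) (Iio (mD M) ∪ (mP M).leaves) (.ord y) := hy
      have hy2 : (Tr.ord y : T) ∈ D (Iio k) := by
        have := tcl_mem hy1
        rw [hmb] at this
        exact D_mono (Iio_subset_Iio hbk.le) this
      obtain ⟨t, ht, h1⟩ := (hn.c2 _ hy2).1 ((hcl _).2 hy1)
      obtain ⟨h2, h3⟩ := huni t ht _ hy2 h1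
      cases t with
      | nat n => cases h3
      | ord x =>
        injection h3 with h3
        exact ⟨x, ord_mem.1 h2, h3.symm⟩
      | pr _ _ => cases h3
  obtain ⟨hca, hgf⟩ := enum_eq hgmono hmono (himg.trans hrng.symm)
  subst hca
  obtain ⟨-, -, hinj, -⟩ := hMAPT O O (f M) (Iio c) hmono
  have hmap : ∀ t ∈ D (Iio c), t.map g = t.map (f M) := fun t ht => map_congr hgf t ht
  -- the parameter
  have hqp : q = p := by
    have h1 : PJ n M (mP n) (mP M) := .par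
    have h2 : mP n = q := by rw [hnn]; rfl
    have h3 : mP M ∈ D (Iio k) := by
      rw [hMm] at hMk ⊢
      exact (pr_mem.1 (pr_mem.1 (pr_mem.1 hMk).2).2).2
    have h4 : q ∈ D (Iio k) := by
      rw [hnn] at hnk
      exact (pr_mem.1 (pr_mem.1 (pr_mem.1 hnk).2).2).2
    rw [h2] at h1
    obtain ⟨h5, h6⟩ := huni q h4 _ h3 h1
    refine hinj q h5 p hp ?_
    rw [hpm, h6, hmap q h5]
  -- the cut
  have hwD : w ∈ D (Iio c) := by
    have := hn.cut
    rw [hnf, inD_iff, hnn] at this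
    exact this
  have h4 : mQ M = .pr (Tr.ofCode φ) v := by
    rw [hMm, ← hφ']
    rfl
  have h5 : mQ (m M) = .pr (Tr.ofCode φ) u := by
    rw [hm]
    rfl
  have h6 : M.snd.fst.snd = v := by
    rw [hMm]
    rfl
  have h7 : n.snd.fst.snd = w := by
    rw [hnn]
    rfl
  have hirr : ¬ (Tr.ofCode φ : T).lt (Tr.ofCode φ) := (hLTO O).1 _
  have h8 : ∀ (w : T) (e : T), av (.pr (Tr.ofCode φ) w) φ e ↔ e.lt w := by
    intro w e
    simp only [av, hirr, false_or, true_and]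
  have key : ∀ e ∈ D (Iio c), (e.lt w ↔ e.lt u) := by
    intro e he
    have h9 := hcut φ e he
    rw [h4, h5, h8, h8] at h9
    have h10 := (hn.c3 e (hDk he) _ (hgk e he) (hgm e he)).1.2
    rw [h6, h7, hmap e he] at h10
    exact h10.trans h9
  have hwu : w = u := by
    rcases (hLTO O).2.2 w u with h9 | h9 | h9
    · exact absurd ((key w hwD).2 h9) ((hLTO O).1 w)
    · exact h9
    · exact absurd ((key u hu).1 h9) ((hLTO O).1 u)
  rw [hnn, hm, hqp, hwu]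

theorem thm (hTRD : G_TRD) (hPJT : G_PJT) (hHCT : G_HCT) (hTRE : G_TRE) (hCLF : G_CLF)
    (hMAPT : G_MAPT.{2, 2}) (hLTO : G_LTO.{2}) : G_CL3 := by
  intro k β I p₀ d₀ h hS f m hC hβ
  have := h
  obtain ⟨b, hb, hIb⟩ := h.bdd I hS.con
  have hIk : ∀ M ∈ I, M ∈ D (Iio k) := fun M hM => D_mono (Iio_subset_Iio hb.le) (hIb hM)
  have hmβ : ∀ M ∈ I, m M ∈ D (Iio β) := by
    intro M hM
    obtain ⟨a, φ, u, d, p, hm, hφ, hd, hda, hu, hp, haβ, hpm⟩ := hC.ms M hM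
    have haβ' : D (Iio a) ⊆ D (Iio β) := D_mono (Iio_subset_Iio haβ.le)
    have hφ0 : ∀ c : Code, (Tr.ofCode c : T) ∈ D (Iio β) := by
      intro c
      induction c with
      | nat n => exact nat_mem _ _
      | ord x => exact x.elim
      | pr s t hs ht => exact pr_mem.2 ⟨hs, ht⟩
    rw [hm]
    exact pr_mem.2 ⟨ord_mem.2 haβ, pr_mem.2 ⟨pr_mem.2 ⟨hφ0 φ, haβ' hu⟩,
      pr_mem.2 ⟨ord_mem.2 (lt_of_le_of_lt hda haβ), haβ' hp⟩⟩⟩
  refine SOM.of_SD (S := Con k) (d := max b β) (max_lt hb hβ) ?_ ?_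
  · rintro x ⟨M, hM, rfl⟩
    exact pr_mem.2 ⟨D_mono (Iio_subset_Iio (le_max_left _ _)) (hIb hM),
      D_mono (Iio_subset_Iio (le_max_right _ _)) (hmβ M hM)⟩
  · have h1 : SD k (Con k) (Con k) (fun e _ => e = .pr e.fst e.snd ∧ e.fst ∈ I ∧
        Ch k e.snd e.fst) := by
      refine SD.and (SD.eq ST.id (ST.pr (ST.fst ST.id) (ST.snd ST.id))) (SD.and
        (SD.mem (ST.fst ST.id) (SV.par hS.con)) ?_)
      exact SD.app2 (R := Ch k) (sdCh h hTRD hPJT hHCT hTRE) (ST.snd ST.id) (ST.fst ST.id)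
    refine h1.congr ?_
    intro e he σ _
    constructor
    · rintro ⟨h2, h3, h4⟩
      refine ⟨e.fst, h3, ?_⟩
      rw [← ch_unique hCLF hMAPT hLTO hS hC h3 (hIk _ h3) (snd_mem he) h4]
      exact h2
    · rintro ⟨M, hM, rfl⟩
      exact ⟨rfl, hM, ch_exists hCLF hMAPT hLTO hS hC hM (hIk _ hM)⟩

end Pool.Agent.Helper17.OD.PkCL3
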