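import Pool.Agent.Helper17.OD.GoalsSO

/-! Packet OD DEC: constructible sets are definable. -/

set_option autoImplicit false

namespace Pool.Agent.Helper17.OD.PkDEC

open Set Pool.Agent.Helper17.OD

theorem mem_dec (x c : T) : x ∈ dec c ↔
    TruT c.fst c.snd.fst (.pr x c.snd.snd) ∧ c = .pr c.fst (.pr c.snd.fst c.snd.snd) := by
  constructor
  · rintro ⟨b, φ, v, rfl, hv, hx, ht⟩
    exact ⟨⟨b, φ, rfl, rfl, pr_mem.2 ⟨hx, hv⟩, ht⟩, rfl⟩
  · rintro ⟨⟨b, φ, h1, h2, h3, h4⟩, h5⟩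
    rw [pr_mem] at h3
    refine ⟨b, φ, c.snd.snd, ?_, h3.2, h3.1, h4⟩
    rw [← h1, ← h2]
    exact h5

theorem dec_bdd {k : O} {S S' : Set (Set T)} (h : SOM k S S') {c : T} (hc : c ∈ D (Iio k)) :
    ∃ d < k, dec c ⊆ D (Iio d) := by
  rcases (dec c).eq_empty_or_nonempty with he | ⟨x, b, φ, v, hcv, -, -, -⟩
  · refine ⟨0, lt_of_le_of_lt zero_le h.omg, ?_⟩
    rw [he]
    exact empty_subset _
  · refine ⟨b, ?_, ?_⟩
    · rw [hcv, pr_mem] at hc
      exact ord_mem.1 hc.1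
    · rintro y ⟨b', φ', v', h1, -, h3, -⟩
      rw [hcv] at h1
      have hb : b = b' := by
        injection h1 with h4 h5
        injection h4
      rw [hb]
      exact h3

theorem thm (h0 : G_TRD) : G_DEC := by
  intro k S S' h
  have hT := (h0 k S S' h).1
  have h1 : SD k S S' (fun e _ => e.fst ∈ dec e.snd) := by
    refine SD.congr (SD.and
      (SD.app3 (R := TruT) (s := fun e => e.snd.fst) (t := fun e => e.snd.snd.fst)
        (r := fun e => .pr e.fst e.snd.snd.snd) hT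
        (ST.fst (ST.snd ST.id)) (ST.fst (ST.snd (ST.snd ST.id)))
        (ST.pr (ST.fst ST.id) (ST.snd (ST.snd (ST.snd ST.id)))))
      (SD.eq (s := fun e => e.snd)
        (t := fun e => .pr e.snd.fst (.pr e.snd.snd.fst e.snd.snd.snd)) (ST.snd ST.id)
        (ST.pr (ST.fst (ST.snd ST.id)) (ST.pr (ST.fst (ST.snd (ST.snd ST.id)))
          (ST.snd (ST.snd (ST.snd ST.id))))))) ?_
    intro e _ σ _
    exact (mem_dec e.fst e.snd).symm
  have hdk : ∀ c ∈ D (Iio k), dec c ⊆ D (Iio k) := by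
    intro c hc
    obtain ⟨d, hd, h2⟩ := dec_bdd h hc
    exact h2.trans (D_mono (Iio_subset_Iio hd.le))
  have h4 : SD k S S' (fun e σ => σ 0 = dec e) := by
    refine SD.congr (SD.allT (P := fun e x σ => (x ∈ σ 0 ↔ x ∈ dec e))
      (SD.iff (SD.mem (ST.fst ST.id) (SV.var 0)) h1)) ?_
    intro e he σ hσ
    constructor
    · intro h5
      ext x
      obtain ⟨d, hd, h6⟩ := h.bdd _ (hσ 0)
      constructor
      · intro hx
        exact (h5 x (D_mono (Iio_subset_Iio hd.le) (h6 hx))).1 hx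
      · intro hx
        exact (h5 x (hdk e he hx)).2 hx
    · intro h5 x _
      rw [h5]
  have h3 : SD k S S' (fun _ σ => σ 0 ∈ Con k) :=
    SD.exT (P := fun _ c σ => σ 0 = dec c) (h4.sub (ST.fst ST.id))
  refine ⟨h1, ?_, h3, h4⟩
  rintro X ⟨c, hc, rfl⟩
  obtain ⟨d, hd, h2⟩ := dec_bdd h hc
  refine SOM.of_SD (S := S) hd h2 ?_
  exact h1.sub (t := fun e => .pr e c) (ST.pr ST.id (ST.const hc))

end Pool.Agent.Helper17.OD.PkDEC
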