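import Pool.Agent.Helper17.OD.GoalsGE

/-! Packet OD FSD: the forcing relation is in the ground model. -/

set_option autoImplicit false

namespace Pool.Agent.Helper17.OD.PkFSD

open Set Pool.Agent.Helper17.OD

variable {k : O} {S S' : Set (Set T)}

theorem ST_tval (c : Code) {t : T → T} (ht : ST k t) : ST k (fun e => tval c (t e)) := by
  obtain ⟨d, e₀, he₀, hd⟩ := ht
  exact ⟨ccomp c d, e₀, he₀, fun e => by rw [tval_ccomp, hd]⟩

theorem ST_nth (n : ℕ) : ∀ {t : T → T}, ST k t → ST k (fun e => nth (t e) n) := by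
  induction n with
  | zero => intro t ht; exact ST.fst ht
  | succ n ih => intro t ht; exact ih (ST.snd ht)

theorem low_mem (F : FD) (j : O) (p : T) (hp : p ∈ F.P j) : p ∈ D (Iio F.κ) := by
  unfold FD.P PLr at hp
  rw [WellFounded.fix_eq] at hp
  exact hp.low

theorem dec_sub {c : T} {b : O} (hc : c ∈ D (Iio b)) : dec c ⊆ D (Iio b) := by
  rintro x ⟨a, φ, v, rfl, -, hx, -⟩
  rw [pr_mem] at hc
  have ha : a < b := ord_mem.1 hc.1
  exact D_mono (Iio_subset_Iio ha.le) hx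

theorem nth_pr (d K : T) : nth (.pr d K) = tcons d (nth K) := by
  funext i
  cases i <;> rfl

/-- the order, restricted to `D (Iio κ)` -/
def L2 (F : FD) (q p : T) : Prop := q ∈ D (Iio F.κ) ∧ p ∈ D (Iio F.κ) ∧ F.Le F.κ q p

/-- the forcing relation with bounds -/
def R3 (F : FD) (φ : SF) (p e K : T) : Prop :=
  p ∈ F.P F.κ ∧ e ∈ D (Iio F.κ) ∧ K ∈ D (Iio F.κ) ∧ Frc F φ p e (nth K)

section

variable (F : FD)

theorem hsom : SOM F.γ F.M F.M := F.g.m1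

theorem sdD (hT : G_TRE) : SD F.γ F.M F.M (fun e _ => e ∈ D (Iio F.κ)) := by
  have h := hsom F
  obtain ⟨-, -, -, -, -, h6, -⟩ := hT F.γ F.M F.M h
  refine SD.congr (SD.app2 (R := InD) h6 (ST.ordc F.g.kg) ST.id) ?_
  intro e _ σ _
  constructor
  · rintro ⟨b, hb, he⟩
    injection hb with hb
    rw [hb]
    exact he
  · intro he
    exact ⟨F.κ, rfl, he⟩

theorem sdP (hP : G_PIM) : SD F.γ F.M F.M (fun e _ => e ∈ F.P F.κ) := by
  have h := hsom F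
  exact SD.mem ST.id (SV.par ((hP F).2.2 F.κ le_rfl))

theorem sdL (hP : G_PIM) : SD F.γ F.M F.M (fun e _ => L2 F e.fst e.snd) := by
  have h := hsom F
  refine SD.congr ((hP F).2.1.sub (t := fun e => .pr (.ord F.κ) e)
    (ST.pr (ST.ordc F.g.kg) ST.id)) ?_
  intro e _ σ _
  constructor
  · rintro ⟨j, -, hj, h1, h2, h3⟩
    have hj' : F.κ = j := by
      injection hj
    subst hj'
    exact ⟨h1, h2, h3⟩
  · rintro ⟨h1, h2, h3⟩
    exact ⟨F.κ, le_rfl, rfl, h1, h2, h3⟩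

theorem sdN (hP : G_PIM) (hC : G_CNC) (hDec : G_DEC) (hT : G_TRE) :
    SD F.γ F.M F.M (fun e _ => IsNm F e) := by
  have h := hsom F
  have hcan := (hC.2.2.2.2.2.2 F.γ F.M F.M h).1
  have hdec := (hDec F.γ F.M F.M h).1
  have hκγ : D (Iio F.κ) ⊆ D (Iio F.γ) := D_mono (Iio_subset_Iio F.g.kg.le)
  have h1 := (hP F).1
  have key : SD F.γ F.M F.M (fun e _ => e ∈ D (Iio F.κ) ∧ Canon e ∧
      ∃ x ∈ D (Iio F.γ), (x.IsOrd ∧ x ∈ D (Iio F.κ)) ∧ ∀ z ∈ D (Iio F.γ), z ∈ dec e →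
        (z = .pr z.fst z.snd ∧ ∃ j ≤ F.κ, x = .ord j ∧ z.snd ∈ F.P j)) := by
    refine SD.and (sdD F hT) (SD.and hcan ?_)
    refine SD.exT (P := fun e x _ => (x.IsOrd ∧ x ∈ D (Iio F.κ)) ∧ ∀ z ∈ D (Iio F.γ), z ∈ dec e →
        (z = .pr z.fst z.snd ∧ ∃ j ≤ F.κ, x = .ord j ∧ z.snd ∈ F.P j)) ?_
    refine SD.and (SD.and (SD.isOrd (ST.fst ST.id))
      (SD.app1 (R := fun x => x ∈ D (Iio F.κ)) (sdD F hT) (ST.fst ST.id))) ?_
    refine SD.allT (P := fun p z _ => z ∈ dec p.snd →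
        (z = .pr z.fst z.snd ∧ ∃ j ≤ F.κ, p.fst = .ord j ∧ z.snd ∈ F.P j)) ?_
    refine SD.imp (SD.app2 (R := fun x c => x ∈ dec c) hdec (ST.fst ST.id)
      (ST.snd (ST.snd ST.id))) ?_
    refine SD.and (SD.eq (ST.fst ST.id) (ST.pr (ST.fst (ST.fst ST.id)) (ST.snd (ST.fst ST.id)))) ?_
    exact SD.app2 (R := fun x y => ∃ j ≤ F.κ, x = .ord j ∧ y ∈ F.P j) h1
      (ST.fst (ST.snd ST.id)) (ST.snd (ST.fst ST.id))
  refine key.congr ?_
  intro c _ σ _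
  constructor
  · rintro ⟨h2, h3, x, -, ⟨-, hx⟩, h4⟩
    refine ⟨h2, h3, ?_⟩
    by_cases hne : (dec c).Nonempty
    · obtain ⟨z, hz⟩ := hne
      obtain ⟨-, j, -, hj, -⟩ := h4 z (hκγ (dec_sub h2 hz)) hz
      subst hj
      refine ⟨j, ord_mem.1 hx, fun z hz => ?_⟩
      obtain ⟨hz1, j', -, hj', hz2⟩ := h4 z (hκγ (dec_sub h2 hz)) hz
      have hjj : j = j' := by
        injection hj'
      subst hjj
      exact ⟨z.fst, z.snd, hz2, hz1⟩
    · refine ⟨0, lt_of_le_of_lt zero_le F.g.wk, fun z hz => ?_⟩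
      exact absurd ⟨z, hz⟩ hne
  · rintro ⟨h2, h3, i, hi, h4⟩
    refine ⟨h2, h3, .ord i, ord_mem.2 (hi.trans F.g.kg), ⟨trivial, ord_mem.2 hi⟩, ?_⟩
    intro z _ hz
    obtain ⟨y, p, hp, rfl⟩ := h4 z hz
    exact ⟨rfl, i, hi.le, rfl, hp⟩

theorem sdDense (hP : G_PIM) (hT : G_TRE) {X : T → T → T → Prop}
    (hX : SD F.γ F.M F.M (fun e _ => X e.fst e.snd.fst e.snd.snd)) :
    SD F.γ F.M F.M (fun e _ => e.fst ∈ F.P F.κ ∧ e.snd.fst ∈ D (Iio F.κ) ∧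
      e.snd.snd ∈ D (Iio F.κ) ∧ ∀ q ∈ F.P F.κ, F.Le F.κ q e.fst → ∃ r ∈ F.P F.κ,
        F.Le F.κ r q ∧ X r e.snd.fst e.snd.snd) := by
  have h := hsom F
  have hκγ : D (Iio F.κ) ⊆ D (Iio F.γ) := D_mono (Iio_subset_Iio F.g.kg.le)
  have hlow : ∀ p ∈ F.P F.κ, p ∈ D (Iio F.κ) := low_mem F F.κ
  have key : SD F.γ F.M F.M (fun e _ => e.fst ∈ F.P F.κ ∧ e.snd.fst ∈ D (Iio F.κ) ∧
      e.snd.snd ∈ D (Iio F.κ) ∧ ∀ q ∈ D (Iio F.γ), (q ∈ F.P F.κ ∧ L2 F q e.fst) →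
        ∃ r ∈ D (Iio F.γ), (r ∈ F.P F.κ ∧ L2 F r q) ∧ X r e.snd.fst e.snd.snd) := by
    refine SD.and (SD.app1 (R := fun x => x ∈ F.P F.κ) (sdP F hP) (ST.fst ST.id))
      (SD.and (SD.app1 (R := fun x => x ∈ D (Iio F.κ)) (sdD F hT) (ST.fst (ST.snd ST.id)))
        (SD.and (SD.app1 (R := fun x => x ∈ D (Iio F.κ)) (sdD F hT) (ST.snd (ST.snd ST.id))) ?_))
    refine SD.allT (P := fun e q _ => (q ∈ F.P F.κ ∧ L2 F q e.fst) →
        ∃ r ∈ D (Iio F.γ), (r ∈ F.P F.κ ∧ L2 F r q) ∧ X r e.snd.fst e.snd.snd) ?_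
    refine SD.imp (SD.and (SD.app1 (R := fun x => x ∈ F.P F.κ) (sdP F hP) (ST.fst ST.id))
      (SD.app2 (R := L2 F) (sdL F hP) (ST.fst ST.id) (ST.fst (ST.snd ST.id)))) ?_
    refine SD.exT (P := fun p r _ => (r ∈ F.P F.κ ∧ L2 F r p.fst) ∧
      X r p.snd.snd.fst p.snd.snd.snd) ?_
    refine SD.and (SD.and (SD.app1 (R := fun x => x ∈ F.P F.κ) (sdP F hP) (ST.fst ST.id))
      (SD.app2 (R := L2 F) (sdL F hP) (ST.fst ST.id) (ST.fst (ST.snd ST.id)))) ?_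
    exact SD.app3 (R := X) hX (ST.fst ST.id) (ST.fst (ST.snd (ST.snd (ST.snd ST.id))))
      (ST.snd (ST.snd (ST.snd (ST.snd ST.id))))
  refine key.congr ?_
  intro e _ σ _
  constructor
  · rintro ⟨h1, h2, h3, h4⟩
    refine ⟨h1, h2, h3, fun q hq hqe => ?_⟩
    obtain ⟨r, -, ⟨hr1, -, -, hr2⟩, hr3⟩ := h4 q (hκγ (hlow q hq)) ⟨hq, hlow q hq, hlow _ h1, hqe⟩
    exact ⟨r, hr1, hr2, hr3⟩
  · rintro ⟨h1, h2, h3, h4⟩
    refine ⟨h1, h2, h3, ?_⟩
    rintro q - ⟨hq, -, -, hqe⟩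
    obtain ⟨r, hr1, hr2, hr3⟩ := h4 q hq hqe
    exact ⟨r, hκγ (hlow r hr1), ⟨hr1, hlow r hr1, hlow q hq, hr2⟩, hr3⟩

theorem sdBase (hP : G_PIM) (hT : G_TRE) {X : T → T → T → Prop}
    (hX : SD F.γ F.M F.M (fun e _ => X e.fst e.snd.fst e.snd.snd)) :
    SD F.γ F.M F.M (fun e _ => e.fst ∈ F.P F.κ ∧ e.snd.fst ∈ D (Iio F.κ) ∧
      e.snd.snd ∈ D (Iio F.κ) ∧ X e.fst e.snd.fst e.snd.snd) := by
  have h := hsom F
  exact SD.and (SD.app1 (R := fun x => x ∈ F.P F.κ) (sdP F hP) (ST.fst ST.id))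
      (SD.and (SD.app1 (R := fun x => x ∈ D (Iio F.κ)) (sdD F hT) (ST.fst (ST.snd ST.id)))
        (SD.and (SD.app1 (R := fun x => x ∈ D (Iio F.κ)) (sdD F hT) (ST.snd (ST.snd ST.id))) hX))

theorem sdFrc (hP : G_PIM) (hC : G_CNC) (hDec : G_DEC) (hT : G_TRE) (φ : SF) :
    SD F.γ F.M F.M (fun e _ => R3 F φ e.fst e.snd.fst e.snd.snd) := by
  have h := hsom F
  have hκγ : D (Iio F.κ) ⊆ D (Iio F.γ) := D_mono (Iio_subset_Iio F.g.kg.le)
  have hlow : ∀ p ∈ F.P F.κ, p ∈ D (Iio F.κ) := low_mem F F.κ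
  have hdec := (hDec F.γ F.M F.M h).1
  induction φ with
  | eq s t =>
    exact sdBase F hP hT (X := fun _ e _ => tval s e = tval t e)
      (SD.eq (ST_tval s (ST.fst (ST.snd ST.id))) (ST_tval t (ST.fst (ST.snd ST.id))))
  | llt s t =>
    exact sdBase F hP hT (X := fun _ e _ => (tval s e).llt (tval t e))
      (SD.llt (ST_tval s (ST.fst (ST.snd ST.id))) (ST_tval t (ST.fst (ST.snd ST.id))))
  | isOrd s =>
    exact sdBase F hP hT (X := fun _ e _ => (tval s e).IsOrd)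
      (SD.isOrd (ST_tval s (ST.fst (ST.snd ST.id))))
  | mem s i =>
    have hX : SD F.γ F.M F.M (fun e _ => (fun r e K => ∃ u ∈ D (Iio F.γ), (u ∈ F.P F.κ ∧
        L2 F r u) ∧ Tr.pr (tval s e) u ∈ dec (nth K i)) e.fst e.snd.fst e.snd.snd) := by
      refine SD.exT (P := fun e u _ => (u ∈ F.P F.κ ∧
        L2 F e.fst u) ∧ Tr.pr (tval s e.snd.fst) u ∈ dec (nth e.snd.snd i)) ?_
      refine SD.and (SD.and (SD.app1 (R := fun x => x ∈ F.P F.κ) (sdP F hP) (ST.fst ST.id))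
        (SD.app2 (R := L2 F) (sdL F hP) (ST.fst (ST.snd ST.id)) (ST.fst ST.id))) ?_
      exact SD.app2 (R := fun x c => x ∈ dec c) hdec
        (ST.pr (ST_tval s (ST.fst (ST.snd (ST.snd ST.id)))) (ST.fst ST.id))
        (ST_nth i (ST.snd (ST.snd (ST.snd ST.id))))
    refine (sdDense F hP hT (X := fun r e K => ∃ u ∈ D (Iio F.γ), (u ∈ F.P F.κ ∧ L2 F r u) ∧
      Tr.pr (tval s e) u ∈ dec (nth K i)) hX).congr ?_
    intro e _ σ _
    refine and_congr_right fun h1 => and_congr_right fun h2 => and_congr_right fun h3 => ?_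
    refine forall_congr' fun q => forall_congr' fun hq => forall_congr' fun hqe => ?_
    refine exists_congr fun r => and_congr_right fun hr => and_congr_right fun hrq => ?_
    constructor
    · rintro ⟨u, -, ⟨hu1, -, -, hu2⟩, hu3⟩
      exact ⟨u, hu1, hu2, hu3⟩
    · rintro ⟨u, hu1, hu2, hu3⟩
      exact ⟨u, hκγ (hlow u hu1), ⟨hu1, hlow r hr, hlow u hu1, hu2⟩, hu3⟩
  | nand φ ψ ih1 ih2 =>
    have key := sdBase F hP hT (X := fun p e K => ∀ q ∈ D (Iio F.γ), (q ∈ F.P F.κ ∧ L2 F q p) →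
      ¬ (R3 F φ q e K ∧ R3 F ψ q e K)) (by
        refine SD.allT (P := fun e q _ => (q ∈ F.P F.κ ∧ L2 F q e.fst) →
          ¬ (R3 F φ q e.snd.fst e.snd.snd ∧ R3 F ψ q e.snd.fst e.snd.snd)) ?_
        refine SD.imp (SD.and (SD.app1 (R := fun x => x ∈ F.P F.κ) (sdP F hP) (ST.fst ST.id))
          (SD.app2 (R := L2 F) (sdL F hP) (ST.fst ST.id) (ST.fst (ST.snd ST.id)))) ?_
        exact SD.nand (SD.app3 (R := R3 F φ) ih1 (ST.fst ST.id) (ST.fst (ST.snd (ST.snd ST.id)))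
          (ST.snd (ST.snd (ST.snd ST.id)))) (SD.app3 (R := R3 F ψ) ih2 (ST.fst ST.id)
          (ST.fst (ST.snd (ST.snd ST.id))) (ST.snd (ST.snd (ST.snd ST.id)))))
    refine key.congr ?_
    intro e _ σ _
    refine and_congr_right fun h1 => and_congr_right fun h2 => and_congr_right fun h3 => ?_
    constructor
    · rintro h4 q hq hqe ⟨h5, h6⟩
      exact h4 q (hκγ (hlow q hq)) ⟨hq, hlow q hq, hlow _ h1, hqe⟩
        ⟨⟨hq, h2, h3, h5⟩, ⟨hq, h2, h3, h6⟩⟩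
    · rintro h4 q - ⟨hq, -, -, hqe⟩ ⟨h5, h6⟩
      exact h4 q hq hqe ⟨h5.2.2.2, h6.2.2.2⟩
  | exT φ ih =>
    have hX : SD F.γ F.M F.M (fun e _ => (fun r e K => ∃ x ∈ D (Iio F.γ), x ∈ D (Iio F.κ) ∧
        R3 F φ r (.pr x e) K) e.fst e.snd.fst e.snd.snd) := by
      refine SD.exT (P := fun e x _ => x ∈ D (Iio F.κ) ∧
        R3 F φ e.fst (.pr x e.snd.fst) e.snd.snd) ?_
      refine SD.and (SD.app1 (R := fun x => x ∈ D (Iio F.κ)) (sdD F hT) (ST.fst ST.id)) ?_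
      exact SD.app3 (R := R3 F φ) ih (ST.fst (ST.snd ST.id))
        (ST.pr (ST.fst ST.id) (ST.fst (ST.snd (ST.snd ST.id)))) (ST.snd (ST.snd (ST.snd ST.id)))
    refine (sdDense F hP hT (X := fun r e K => ∃ x ∈ D (Iio F.γ), x ∈ D (Iio F.κ) ∧
      R3 F φ r (.pr x e) K) hX).congr ?_
    intro e _ σ _
    refine and_congr_right fun h1 => and_congr_right fun h2 => and_congr_right fun h3 => ?_
    refine forall_congr' fun q => forall_congr' fun hq => forall_congr' fun hqe => ?_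
    refine exists_congr fun r => and_congr_right fun hr => and_congr_right fun hrq => ?_
    constructor
    · rintro ⟨x, -, hx, hR⟩
      exact ⟨x, hx, hR.2.2.2⟩
    · rintro ⟨x, hx, hR⟩
      exact ⟨x, hκγ hx, hx, hr, pr_mem.2 ⟨hx, h2⟩, h3, hR⟩
  | exS φ ih =>
    have hX : SD F.γ F.M F.M (fun e _ => (fun r e K => ∃ d ∈ D (Iio F.γ), IsNm F d ∧
        R3 F φ r e (.pr d K)) e.fst e.snd.fst e.snd.snd) := by
      refine SD.exT (P := fun e d _ => IsNm F d ∧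
        R3 F φ e.fst e.snd.fst (.pr d e.snd.snd)) ?_
      refine SD.and (SD.app1 (R := fun x => IsNm F x) (sdN F hP hC hDec hT) (ST.fst ST.id)) ?_
      exact SD.app3 (R := R3 F φ) ih (ST.fst (ST.snd ST.id)) (ST.fst (ST.snd (ST.snd ST.id)))
        (ST.pr (ST.fst ST.id) (ST.snd (ST.snd (ST.snd ST.id))))
    refine (sdDense F hP hT (X := fun r e K => ∃ d ∈ D (Iio F.γ), IsNm F d ∧ R3 F φ r e (.pr d K)) hX).congr ?_
    intro e _ σ _
    refine and_congr_right fun h1 => and_congr_right fun h2 => and_congr_right fun h3 => ?_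
    refine forall_congr' fun q => forall_congr' fun hq => forall_congr' fun hqe => ?_
    refine exists_congr fun r => and_congr_right fun hr => and_congr_right fun hrq => ?_
    constructor
    · rintro ⟨d, -, hd, hR⟩
      refine ⟨d, hd, ?_⟩
      have := hR.2.2.2
      rwa [nth_pr] at this
    · rintro ⟨d, hd, hR⟩
      refine ⟨d, hκγ hd.1, hd, hr, h2, pr_mem.2 ⟨hd.1, h3⟩, ?_⟩
      rwa [nth_pr]

end

theorem thm (hP : G_PIM) (hC : G_CNC) (hDec : G_DEC) (hT : G_TRE) : G_FSD :=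
  fun F => ⟨sdN F hP hC hDec hT, fun φ => sdFrc F hP hC hDec hT φ⟩

end Pool.Agent.Helper17.OD.PkFSD
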