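import Pool.Agent.Helper17.OD.GoalsWM

/-! Packet OD WRK: ranks in transitive models. -/

set_option autoImplicit false

namespace Pool.Agent.Helper17.OD.PkWRK

open Set Pool.Agent.Helper17.OD

variable {W Q : Set Z}

/-- a bound for the union of the second components -/
noncomputable def Ub (g : Z) : Z := ZFSet.sUnion (ZFSet.sUnion g) ∪
  ZFSet.sUnion (ZFSet.sUnion (ZFSet.sUnion g))

/-- the union of the `z ∪ {z}`, `z` a second component of an element of `g` -/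
noncomputable def Hh (c g : Z) : Z :=
  c ∪ ZFSet.sep (fun w => ∃ p ∈ g, ∃ y z : Z, p = ZFSet.pair y z ∧ w ∈ (insert z z : Z)) (Ub g)

theorem mem_Ub {g y z w : Z} (hp : ZFSet.pair y z ∈ g) (hw : w ∈ (insert z z : Z)) :
    w ∈ Ub g := by
  have h1 : ({y, z} : Z) ∈ ZFSet.sUnion g :=
    ZFSet.mem_sUnion.2 ⟨_, hp, by simp [ZFSet.pair]⟩
  have h2 : z ∈ ZFSet.sUnion (ZFSet.sUnion g) := ZFSet.mem_sUnion.2 ⟨_, h1, by simp⟩
  rw [Ub, ZFSet.mem_union]
  rw [ZFSet.mem_insert_iff] at hw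
  rcases hw with rfl | hw
  · exact Or.inl h2
  · exact Or.inr (ZFSet.mem_sUnion.2 ⟨_, h2, hw⟩)

theorem mem_Hh (c g w : Z) : w ∈ Hh c g ↔ w ∈ c ∨
    ∃ p ∈ g, ∃ y z : Z, p = ZFSet.pair y z ∧ w ∈ (insert z z : Z) := by
  rw [Hh, ZFSet.mem_union, ZFSet.mem_sep]
  refine or_congr_right ⟨fun h => h.2, fun h => ⟨?_, h⟩⟩
  obtain ⟨p, hp, y, z, rfl, hw⟩ := h
  exact mem_Ub hp hw

theorem dtUb [hQ : PS W Q] [hz : ZM W] {f : (ℕ → Z) → Z} (hf : DT W Q f) :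
    DT W Q (fun v => Ub (f v)) :=
  DT.un (DT.sU (DT.sU hf)) (DT.sU (DT.sU (DT.sU hf)))

theorem dpK [hQ : PS W Q] [hz : ZM W] : DP W Q (fun v => ∃ p ∈ v 1, ∃ y z : Z,
    p = ZFSet.pair y z ∧ v 0 ∈ (insert z z : Z)) := by
  have h1 : DP W Q (fun v => ∃ p ∈ v 1, ∃ y ∈ W, ∃ z ∈ W, p = ZFSet.pair y z ∧
      v 0 ∈ (insert z z : Z)) := by
    apply_rules (maxDepth := 500) [DP.ex, DP.bex, DP.and, DP.mem, DP.eq, DT.pair, DT.ins, DT.var]
  refine h1.congr fun v hv => ?_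
  constructor
  · rintro ⟨p, hp, y, -, z, -, h⟩
    exact ⟨p, hp, y, z, h⟩
  · rintro ⟨p, hp, y, z, h, h'⟩
    have hpW := hz.trans _ (hv 1) _ hp
    rw [h] at hpW
    exact ⟨p, hp, y, (mem_of_pair hpW).1, z, (mem_of_pair hpW).2, h, h'⟩

theorem Hh_mem [hz : ZM W] {c g : Z} (hc : c ∈ W) (hg : g ∈ W) : Hh c g ∈ W := by
  have hU : Ub g ∈ W := (dtUb (W := W) (Q := W) (DT.par hg)).1 (fun _ => ∅) (fun _ => hz.emp)
  have h1 := dpK (W := W) (Q := W)
  obtain ⟨b, hb, hb'⟩ := ZM.sepv (W := W) (P := fun w v => ∃ p ∈ v 0, ∃ y z : Z,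
    p = ZFSet.pair y z ∧ w ∈ (insert z z : Z)) h1 (v := fun _ => g) (fun _ => hg) hU
  have h2 : Hh c g = c ∪ b := by
    ext w
    rw [mem_Hh, ZFSet.mem_union, hb']
    refine or_congr_right ⟨fun h => ⟨?_, h⟩, fun h => h.2⟩
    obtain ⟨p, hp, y, z, rfl, hw⟩ := h
    exact mem_Ub hp hw
  rw [h2]
  exact (DT.un (W := W) (Q := W) (DT.par hc) (DT.par hb)).1 (fun _ => ∅) (fun _ => hz.emp)

theorem key (hREC : G_WREC) (hQ : PS W Q) (hz : ZM W) (a : O)
    (ha : DT W Q (fun _ => a.toZFSet)) :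
    (∀ x ∈ W, (a + x.rank).toZFSet ∈ W) ∧ DP W Q (fun v => v 0 = (a + (v 1).rank).toZFSet) := by
  have := hQ
  have := hz
  have haW : a.toZFSet ∈ W := ha.1 (fun _ => ∅) (fun _ => hz.emp)
  refine (fun h => ⟨h.1, h.2.1⟩) (hREC W Q hz hQ (fun x => (a + x.rank).toZFSet)
    (fun _ g => Hh a.toZFSet g) (fun x _ g hg => Hh_mem haW hg) ?_ ?_)
  · have h3 : DT W Q (fun v => Hh a.toZFSet (v 1)) := by
      refine DT.of_mem (fun v hv => Hh_mem haW (hv 1)) ?_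
      have h4 : DP W Q (fun v => v 0 ∈ a.toZFSet ∨ ∃ p ∈ v 2, ∃ y z : Z,
          p = ZFSet.pair y z ∧ v 0 ∈ (insert z z : Z)) := by
        refine DP.or (DP.mem (DT.var 0) ha) ?_
        exact DP.ren (P := fun v => ∃ p ∈ v 1, ∃ y z : Z,
          p = ZFSet.pair y z ∧ v 0 ∈ (insert z z : Z)) (fun n => if n = 0 then 0 else n + 1) dpK
      refine h4.congr fun v _ => ?_
      rw [mem_Hh]
    exact h3.2
  · intro x hx g hg hgx
    ext w
    rw [mem_Hh, Ordinal.mem_toZFSet_iff, Ordinal.mem_toZFSet_iff]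
    constructor
    · rintro ⟨b, hb, rfl⟩
      rcases lt_or_ge b a with hba | hab
      · exact Or.inl ⟨b, hba, rfl⟩
      · right
        obtain ⟨c, rfl⟩ := exists_add_of_le hab
        have hc : c < x.rank := (add_lt_add_iff_left a).1 hb
        obtain ⟨y, hy, hcy⟩ := ZFSet.lt_rank_iff.1 hc
        refine ⟨_, (hgx _).2 ⟨y, hy, rfl⟩, y, _, rfl, ?_⟩
        rw [ZFSet.mem_insert_iff]
        have hle : a + c ≤ a + y.rank := add_le_add_right hcy a
        rcases eq_or_lt_of_le hle with he | hlt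
        · exact Or.inl (by rw [he])
        · exact Or.inr (Ordinal.toZFSet_mem_toZFSet_iff.2 hlt)
    · rintro (⟨b, hb, rfl⟩ | ⟨p, hp, y, z, rfl, hw⟩)
      · exact ⟨b, lt_of_lt_of_le hb (by simp), rfl⟩
      · obtain ⟨y', hy', he⟩ := (hgx _).1 hp
        obtain ⟨rfl, rfl⟩ := ZFSet.pair_inj.1 he
        have hlt : a + y.rank < a + x.rank :=
          (add_lt_add_iff_left a).2 (ZFSet.rank_lt_of_mem hy')
        rw [ZFSet.mem_insert_iff] at hw
        rcases hw with rfl | hw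
        · exact ⟨_, hlt, rfl⟩
        · obtain ⟨b, hb, rfl⟩ := Ordinal.mem_toZFSet_iff.1 hw
          exact ⟨b, hb.trans hlt, rfl⟩

theorem thm (hREC : G_WREC) : G_WRK := by
  intro W Q hz hQ
  have h0 : DT W Q (fun _ => (0 : O).toZFSet) := by
    rw [Ordinal.toZFSet_zero]
    exact DT.emp
  obtain ⟨h1, h2⟩ := key hREC hQ hz 0 h0
  refine ⟨?_, ?_, ?_⟩
  · intro x hx
    have := h1 x hx
    rwa [zero_add] at this
  · refine h2.congr fun v _ => ?_
    rw [zero_add]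
  · intro a ha
    have h3 := (key hREC ZM.psW hz a (DT.par ha)).1 zω hz.om
    have h4 : zω.rank = Ordinal.omega0 := Ordinal.rank_toZFSet _
    rwa [h4] at h3

end Pool.Agent.Helper17.OD.PkWRK
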