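import Pool.Agent.Helper17.OD.GoalsWM

/-! Packet OD WSO: the bounded sets of trees of a transitive model. -/

set_option autoImplicit false

namespace Pool.Agent.Helper17.OD.PkWSO

open Set Pool.Agent.Helper17.OD

variable {W : Set Z}

theorem enc_pr (s t : T) : enc (.pr s t) = ZFSet.pair (zn 2) (ZFSet.pair (enc s) (enc t)) := rfl

theorem enc_od (hODC : G_ODC) (hz : ZM W) {κ : O} (hκ : Ht W κ)
    (henc : ∀ t : T, enc t ∈ W ↔ t ∈ D (Iio κ)) :
    ∀ e : T, e ∈ D (Iio κ) → ODF W ∅ (enc e) := by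
  obtain ⟨-, h2, h3, -, h5, -⟩ := hODC W ∅ hz
  have := hz
  have := h5
  have key : ∀ a ∈ W, DT W {x | ODF W ∅ x} (fun _ => a) → ODF W ∅ a := by
    intro a ha hda
    exact h2 (fun y => y = a) (DP.eq (DT.var 0) hda) a ha (fun y _ => Iff.rfl)
  intro e
  induction e with
  | nat n =>
    intro he
    exact key _ ((henc _).2 he) (DT.pair (DT.nat 0) (DT.nat n))
  | ord a =>
    intro he
    have ha : ODF W ∅ a.toZFSet :=
      h3 _ ⟨(hκ a).2 (ord_mem.1 he), Or.inl (ZFSet.isOrdinal_toZFSet a)⟩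
    exact key _ ((henc _).2 he) (DT.pair (DT.nat 1) (DT.par ha))
  | pr s t hs ht =>
    intro he
    have hs' := hs (pr_mem.1 he).1
    have ht' := ht (pr_mem.1 he).2
    exact key _ ((henc _).2 he) (DT.pair (DT.nat 2) (DT.pair (DT.par hs') (DT.par ht')))

theorem thm (hENC : G_ENC) (hWCS : G_WCS) (hWTR : G_WTR) (hODC : G_ODC) : G_WSO := by
  intro W κ hz hκ
  obtain ⟨hlim, homg, henc⟩ := hENC.2.2.2.2.2 W κ hz hκ
  have := hz
  have h5 : PS W {x | ODF W ∅ x} := (hODC W ∅ hz).2.2.2.2.1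
  obtain ⟨-, hc2, hc3, -, hc5⟩ := hWCS W κ hz hκ
  have hod := enc_od hODC hz hκ henc
  have hsub : OW W κ ⊆ SW W κ := by
    rintro X ⟨h1, A, ⟨hA, h2⟩, h3⟩
    exact ⟨h1, A, hA, h3⟩
  have hdk : ∀ d < κ, ∀ x ∈ D (Iio d), x ∈ D (Iio κ) := fun d hd x hx =>
    D_mono (Iio_subset_Iio hd.le) hx
  refine ⟨hlim, homg, hsub, ?_, fun X hX => hX.1, ?_, ?_, ?_⟩
  · have h6 := hc3 (fun _ => False) DP.const 0 (lt_of_le_of_lt zero_le homg)
    have h7 : ({t | t ∈ D (Iio (0 : O)) ∧ (fun _ => False) (enc t)} : Set T) = ∅ := by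
      ext t
      simp
    rwa [h7] at h6
  · intro φ e he σ hσ d hd
    obtain ⟨P, hP, hPS⟩ := hWTR W W κ hz ZM.psW hκ φ
    choose A hA hAσ using fun i => (hσ i).2
    have h6 := DP.app1 (R := fun z => P (zcons z A)) (DP.fixPar hP hA)
      (f := fun v => ZFSet.pair (zn 2) (ZFSet.pair (v 0) (enc e)))
      (DT.pair (DT.nat 2) (DT.pair (DT.var 0) (DT.par ((henc e).2 he))))
    have h7 := hc2 (fun z => P (zcons (ZFSet.pair (zn 2) (ZFSet.pair z (enc e))) A)) h6 d hd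
    convert h7 using 1
    ext x
    refine and_congr_right fun hx => ?_
    exact (hPS (.pr x e) σ _ (pr_mem.2 ⟨hdk d hd x hx, he⟩) hσ rfl hAσ).symm
  · intro φ e he σ hσ d hd
    obtain ⟨P, hP, hPS⟩ := hWTR W {x | ODF W ∅ x} κ hz h5 hκ φ
    choose A hA hAσ using fun i => (hσ i).2
    have h6 := DP.app1 (R := fun z => P (zcons z A)) (DP.fixPar hP hA)
      (f := fun v => ZFSet.pair (zn 2) (ZFSet.pair (v 0) (enc e)))
      (DT.pair (DT.nat 2) (DT.pair (DT.var 0) (DT.par (hod e he))))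
    have h7 := hc3 (fun z => P (zcons (ZFSet.pair (zn 2) (ZFSet.pair z (enc e))) A)) h6 d hd
    convert h7 using 1
    ext x
    refine and_congr_right fun hx => ?_
    exact (hPS (.pr x e) σ _ (pr_mem.2 ⟨hdk d hd x hx, he⟩) (fun i => hsub (hσ i)) rfl
      hAσ).symm
  · intro φ e he σ hσ d hd h
    obtain ⟨P, hP, hPS⟩ := hWTR W W κ hz ZM.psW hκ φ
    choose A hA hAσ using fun i => (hσ i).2
    have h6 := DP.app1 (R := fun z => P (zcons z A)) (DP.fixPar hP hA)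
      (f := fun v => ZFSet.pair (zn 2) (ZFSet.pair (v 1)
        (ZFSet.pair (zn 2) (ZFSet.pair (v 0) (enc e)))))
      (DT.pair (DT.nat 2) (DT.pair (DT.var 1) (DT.pair (DT.nat 2) (DT.pair (DT.var 0)
        (DT.par ((henc e).2 he))))))
    have key : ∀ x ∈ D (Iio κ), ∀ y ∈ D (Iio κ), (P (zcons (ZFSet.pair (zn 2)
        (ZFSet.pair (enc y) (ZFSet.pair (zn 2) (ZFSet.pair (enc x) (enc e))))) A) ↔
        Sat κ (SW W κ) φ (.pr y (.pr x e)) σ) := by
      intro x hx y hy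
      exact hPS (.pr y (.pr x e)) σ _ (pr_mem.2 ⟨hy, pr_mem.2 ⟨hx, he⟩⟩) hσ rfl hAσ
    obtain ⟨b, hb, hb'⟩ := hc5 (fun x y => P (zcons (ZFSet.pair (zn 2)
      (ZFSet.pair y (ZFSet.pair (zn 2) (ZFSet.pair x (enc e))))) A)) h6 d hd (fun x hx => by
        obtain ⟨y, hy, hS⟩ := h x hx
        exact ⟨y, hy, (key x (hdk d hd x hx) y hy).2 hS⟩)
    refine ⟨b, hb, fun x hx => ?_⟩
    obtain ⟨y, hy, hS⟩ := hb' x hx
    exact ⟨y, hy, (key x (hdk d hd x hx) y (hdk b hb y hy)).1 hS⟩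

end Pool.Agent.Helper17.OD.PkWSO
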