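import Pool.Agent.Helper17.OD.GoalsMA

/-! Packet OD CLF: finite character of the closure in the base set. -/

set_option autoImplicit false

namespace Pool.Agent.Helper17.OD.PkCLF

open Set Pool.Agent.Helper17.OD

theorem mono {a : O} {Q : Code → T → Prop} {A A' : Set O} (hA : A ⊆ A') {t : T}
    (h : TCl a Q A t) : TCl a Q A' t := by
  induction h with
  | nat n => exact TCl.nat n
  | base hx hlt => exact TCl.base (hA hx) hlt
  | pr _ _ ih1 ih2 => exact TCl.pr ih1 ih2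
  | fst _ ih => exact TCl.fst ih
  | snd _ ih => exact TCl.snd ih
  | inner _ hb _ he hw ih1 ih2 => exact TCl.inner ih1 hb ih2 he hw
  | top _ hq hw ih => exact TCl.top ih hq hw

theorem thm : G_CLF := by
  intro a Q A B t h
  have hl : ∀ d1 d2 : T, d1.leaves ∪ B ⊆ (Tr.pr d1 d2).leaves ∪ B := by
    intro d1 d2 x hx
    rcases hx with hx | hx
    · exact Or.inl (Or.inl hx)
    · exact Or.inr hx
  have hr : ∀ d1 d2 : T, d2.leaves ∪ B ⊆ (Tr.pr d1 d2).leaves ∪ B := by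
    intro d1 d2 x hx
    rcases hx with hx | hx
    · exact Or.inl (Or.inr hx)
    · exact Or.inr hx
  induction h with
  | nat n => exact ⟨.nat 0, empty_subset _, TCl.nat n⟩
  | @base x hx hlt =>
    rcases hx with hx | hx
    · exact ⟨.ord x, singleton_subset_iff.2 hx, TCl.base (Or.inl rfl) hlt⟩
    · exact ⟨.nat 0, empty_subset _, TCl.base (Or.inr hx) hlt⟩
  | pr _ _ ih1 ih2 =>
    obtain ⟨d1, h1, h1'⟩ := ih1
    obtain ⟨d2, h2, h2'⟩ := ih2
    exact ⟨.pr d1 d2, union_subset h1 h2, TCl.pr (mono (hl d1 d2) h1') (mono (hr d1 d2) h2')⟩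
  | fst _ ih =>
    obtain ⟨d, h1, h1'⟩ := ih
    exact ⟨d, h1, TCl.fst h1'⟩
  | snd _ ih =>
    obtain ⟨d, h1, h1'⟩ := ih
    exact ⟨d, h1, TCl.snd h1'⟩
  | inner _ hb _ he hw ih1 ih2 =>
    obtain ⟨d1, h1, h1'⟩ := ih1
    obtain ⟨d2, h2, h2'⟩ := ih2
    exact ⟨.pr d1 d2, union_subset h1 h2,
      TCl.inner (mono (hl d1 d2) h1') hb (mono (hr d1 d2) h2') he hw⟩
  | top _ hq hw ih =>
    obtain ⟨d, h1, h1'⟩ := ih
    exact ⟨d, h1, TCl.top h1' hq hw⟩

end Pool.Agent.Helper17.OD.PkCLF
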